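import Mathlib

/-!
# K-stability, group actions, coverings and products: data and definitions

The expansions `Exp1`, `Exp2`, the numbers of a test configuration and the description of the
sections of a product test configuration are those of the library result
`MP_9dce12_gt.Products`; group actions, free quotients and étale coverings are new.
-/

set_option autoImplicit false

namespace Pool.Agent.H88.YT

open Filter Asymptotics

/-- `f(k) = k^d (x₀ + x₁/k) + O(k^{d-2})` -/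
def Exp2 (f : ℕ → ℝ) (d : ℕ) (x₀ x₁ : ℝ) : Prop :=
  (fun k : ℕ => f k - (k : ℝ) ^ d * (x₀ + x₁ / k)) =O[atTop] fun k : ℕ => (k : ℝ) ^ ((d : ℤ) - 2)

/-- `f(k) = x₀ k^d + O(k^{d-1})` -/
def Exp1 (f : ℕ → ℝ) (d : ℕ) (x₀ : ℝ) : Prop :=
  (fun k : ℕ => f k - (k : ℝ) ^ d * x₀) =O[atTop] fun k : ℕ => (k : ℝ) ^ ((d : ℤ) - 1)

/-- Polarized manifolds, actions of finite groups on them, test configurations. -/
structure Theory where
  /-- polarized manifolds `(M, L)` -/
  Pol : Type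
  /-- dimension -/
  dim : Pol → ℕ
  /-- `dim H^0(M, L^k)` -/
  h0 : Pol → ℕ → ℝ
  /-- `c_1(M) = λ c_1(L)` for a real number `λ` -/
  Einstein : Pol → Prop
  /-- test configurations -/
  TC : Pol → Type
  /-- the exponent `r` of a test configuration -/
  r : {X : Pol} → TC X → ℕ
  /-- `dim H^0(M_0, L_0^k)` -/
  d : {X : Pol} → TC X → ℕ → ℝ
  /-- `Tr(A_k)` -/
  t : {X : Pol} → TC X → ℕ → ℝ
  /-- `Tr(A_k²)` -/
  q : {X : Pol} → TC X → ℕ → ℝ
  /-- the actions of the group `Γ` on `(M, L)` -/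
  Act : (Γ : Type) → [Group Γ] → Pol → Type
  /-- the action of `Γ` extends to the test configuration -/
  Equi : {Γ : Type} → [Group Γ] → {X : Pol} → Act Γ X → TC X → Prop
  /-- `c_1(L)` contains a cscK metric which is invariant under `Γ` -/
  Csck : {Γ : Type} → [Group Γ] → {X : Pol} → Act Γ X → Prop
  /-- `M` has no non-zero holomorphic vector field which is invariant under `Γ` -/
  NoFields : {Γ : Type} → [Group Γ] → {X : Pol} → Act Γ X → Prop
  /-- the action of the trivial group -/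
  one : (X : Pol) → Act Unit X
  /-- the action of `Δ` through a homomorphism `Δ → Γ` -/
  comp : {Γ Δ : Type} → [Group Γ] → [Group Δ] → {X : Pol} → Act Γ X → (Δ →* Γ) → Act Δ X
  /-- `(M₁ × M₂, L₁ ⊠ L₂)` -/
  prod : Pol → Pol → Pol
  /-- the diagonal action on the product -/
  prodAct : {Γ : Type} → [Group Γ] → {X Y : Pol} → Act Γ X → Act Γ Y → Act Γ (prod X Y)
  /-- the product of a test configuration of the first factor with the second factor -/
  left : (X Y : Pol) → TC X → TC (prod X Y)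
  /-- `Γ` acts freely, and the second polarized manifold is the quotient -/
  Quot : {Γ : Type} → [Group Γ] → {X : Pol} → Act Γ X → Pol → Prop
  /-- the second polarized manifold is a finite étale covering of the first one of degree `e`, with
  the pull back of the polarization -/
  Cover : Pol → Pol → ℕ → Prop

variable {T : Theory}

/-- The numbers `a₀, a₁, b₀, b₁, c₀` of a test configuration. -/
structure Numbers {X : T.Pol} (χ : T.TC X) (a₀ a₁ b₀ b₁ c₀ : ℝ) : Prop where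
  d : Exp2 (T.d χ) (T.dim X) a₀ a₁
  t : Exp2 (T.t χ) (T.dim X + 1) b₀ b₁
  q : Exp1 (T.q χ) (T.dim X + 2) c₀

/-- the Futaki invariant -/
noncomputable def fut (a₀ a₁ b₀ b₁ : ℝ) : ℝ := (a₁ * b₀ - a₀ * b₁) / a₀ ^ 2

/-- the square of the norm, with `r^{n+2}` in the denominator -/
noncomputable def normSq (r n : ℕ) (a₀ b₀ c₀ : ℝ) : ℝ := (c₀ - b₀ ^ 2 / a₀) / (r : ℝ) ^ (n + 2)

/-- Equivariant K-stability: `Fut(χ) > 0` for all `Γ`-equivariant test configurations with
`‖χ‖ > 0`. -/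
def KStable {Γ : Type} [Group Γ] {X : T.Pol} (a : T.Act Γ X) : Prop :=
  ∀ χ : T.TC X, T.Equi a χ → ∀ a₀ a₁ b₀ b₁ c₀ : ℝ, Numbers χ a₀ a₁ b₀ b₁ c₀ →
    0 < normSq (T.r χ) (T.dim X) a₀ b₀ c₀ → 0 < fut a₀ a₁ b₀ b₁

/-- The equivariant form of Q1: if there is no invariant vector field, an invariant cscK metric
exists precisely when the manifold is equivariantly K-stable. -/
def EQ1 {Γ : Type} [Group Γ] {X : T.Pol} (a : T.Act Γ X) : Prop :=
  T.NoFields a → (T.Csck a ↔ KStable a)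

/-- Q1 for a polarized manifold. -/
def Q1 (T : Theory) (X : T.Pol) : Prop := EQ1 (T.one X)

/-- Sections of a product test configuration: `H^0(M_0 × Y, (L_0 ⊠ M^r)^k)` is
`H^0(M_0, L_0^k) ⊗ H^0(Y, M^{rk})`, with the action on the first factor. -/
structure ProductSections (T : Theory) (X Y : T.Pol) : Prop where
  dim : T.dim (T.prod X Y) = T.dim X + T.dim Y
  r : ∀ χ : T.TC X, T.r (T.left X Y χ) = T.r χ
  d : ∀ (χ : T.TC X) (k : ℕ), T.d (T.left X Y χ) k = T.d χ k * T.h0 Y (T.r χ * k)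
  t : ∀ (χ : T.TC X) (k : ℕ), T.t (T.left X Y χ) k = T.t χ k * T.h0 Y (T.r χ * k)
  q : ∀ (χ : T.TC X) (k : ℕ), T.q (T.left X Y χ) k = T.q χ k * T.h0 Y (T.r χ * k)

/-- Known facts.

* `hilbert`: `dim H^0(Y, M^k) = α₀ k^m + α₁ k^{m-1} + O(k^{m-2})` with `α₀ > 0`; `r_pos`: `r ≥ 1`;
  `a_pos`: the leading coefficient `a₀` of a test configuration is positive;
* `equi_one`, `equi_comp`, `fields_one`, `fields_comp`, `prod`, `equi_left`, `swap`: trivial group,
  restriction of the group, sections of products;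
* `csck_prod`, `fields_prod`, `csck_quot`, `fields_quot`, `csck_cover`, `fields_cover`: products of
  cscK metrics and vector fields on products, descent to free quotients and pull back from them,
  pull back to étale coverings;
* `stable`: an invariant cscK metric implies equivariant K-stability if there are no invariant
  vector fields (Stoppa; Berman, Darvas and Lu);
* `unique`: the cscK metrics in `c_1(L)` form one orbit of `Aut_0(M)`, a symmetric space without
  compact factor, on which `Γ` has a fixed point by Cartan's theorem (Donaldson; Chen and Tian; Berman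
  and Berndtsson);
* `einstein`: the equivariant form of Q1 if `c_1(M) = λ c_1(L)` (Aubin, Yau; Chen, Donaldson and
  Sun; Tian; in the equivariant form Datar and Székelyhidi);
* `cover`: the normalization `χ'` of the pull back of `χ` after a base change of order `m` such that
  the central fibre of `χ'` is reduced; `b₁' ≥ m e b₁` since base change and normalization do not
  increase the Futaki invariant (Boucksom, Hisamoto and Jonsson);
* `coverQuot`: the same for the covering `M → M/Γ`; now the pull back is equivariant;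
* `quot`: the quotient by `Γ` of the normalization of `χ`, polarized by a power `s` which descends;
  `b₁' ≥ s^n b₁ / |Γ|` since the ramification of the quotient map in the central fibre only
  increases the Futaki invariant of `χ`. -/
structure Facts (T : Theory) : Prop where
  hilbert : ∀ Y : T.Pol, ∃ α₀ α₁ : ℝ, 0 < α₀ ∧ Exp2 (T.h0 Y) (T.dim Y) α₀ α₁
  r_pos : ∀ (X : T.Pol) (χ : T.TC X), 0 < T.r χ
  a_pos : ∀ (X : T.Pol) (χ : T.TC X) (a₀ a₁ : ℝ), Exp2 (T.d χ) (T.dim X) a₀ a₁ → 0 < a₀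
  equi_one : ∀ (X : T.Pol) (χ : T.TC X), T.Equi (T.one X) χ
  equi_comp : ∀ {Γ Δ : Type} [Group Γ] [Group Δ] {X : T.Pol} (a : T.Act Γ X) (φ : Δ →* Γ)
    (χ : T.TC X), T.Equi a χ → T.Equi (T.comp a φ) χ
  fields_one : ∀ {Γ : Type} [Group Γ] {X : T.Pol} (a : T.Act Γ X), T.NoFields (T.one X) →
    T.NoFields a
  fields_comp : ∀ {Γ Δ : Type} [Group Γ] [Group Δ] {X : T.Pol} (a : T.Act Γ X) (φ : Δ →* Γ),
    T.NoFields (T.comp a φ) → T.NoFields a
  prod : ∀ X Y, ProductSections T X Y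
  equi_left : ∀ {Γ : Type} [Group Γ] {X Y : T.Pol} (a : T.Act Γ X) (b : T.Act Γ Y) (χ : T.TC X),
    T.Equi a χ → T.Equi (T.prodAct a b) (T.left X Y χ)
  swap : ∀ {Γ : Type} [Group Γ] {X Y : T.Pol} (a : T.Act Γ X) (b : T.Act Γ Y),
    KStable (T.prodAct a b) → KStable (T.prodAct b a)
  csck_prod : ∀ {Γ : Type} [Group Γ] {X Y : T.Pol} (a : T.Act Γ X) (b : T.Act Γ Y),
    T.Csck a → T.Csck b → T.Csck (T.prodAct a b)
  fields_prod : ∀ {Γ : Type} [Group Γ] {X Y : T.Pol} (a : T.Act Γ X) (b : T.Act Γ Y),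
    T.NoFields (T.prodAct a b) → T.NoFields a ∧ T.NoFields b
  csck_quot : ∀ {Γ : Type} [Group Γ] {X Y : T.Pol} (a : T.Act Γ X), T.Quot a Y →
    (T.Csck a ↔ T.Csck (T.one Y))
  fields_quot : ∀ {Γ : Type} [Group Γ] {X Y : T.Pol} (a : T.Act Γ X), T.Quot a Y →
    (T.NoFields a ↔ T.NoFields (T.one Y))
  csck_cover : ∀ (X X' : T.Pol) (e : ℕ), T.Cover X X' e → T.Csck (T.one X) → T.Csck (T.one X')
  fields_cover : ∀ (X X' : T.Pol) (e : ℕ), T.Cover X X' e → T.NoFields (T.one X') →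
    T.NoFields (T.one X)
  stable : ∀ {Γ : Type} [Group Γ] {X : T.Pol} (a : T.Act Γ X), T.NoFields a → T.Csck a → KStable a
  unique : ∀ {Γ : Type} [Group Γ] [Finite Γ] {X : T.Pol} (a : T.Act Γ X),
    T.Csck a ↔ T.Csck (T.one X)
  einstein : ∀ {Γ : Type} [Group Γ] [Finite Γ] {X : T.Pol} (a : T.Act Γ X), T.Einstein X → EQ1 a
  cover : ∀ (X X' : T.Pol) (e : ℕ), T.Cover X X' e → 0 < e ∧ T.dim X' = T.dim X ∧
    ∀ (χ : T.TC X) (a₀ a₁ b₀ b₁ c₀ : ℝ), Numbers χ a₀ a₁ b₀ b₁ c₀ →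
      ∃ (m : ℕ) (χ' : T.TC X') (b₁' : ℝ), 0 < m ∧ T.r χ' = T.r χ ∧ m * (e * b₁) ≤ b₁' ∧
        Numbers χ' (e * a₀) (e * a₁) (m * (e * b₀)) b₁' (m ^ 2 * (e * c₀))
  coverQuot : ∀ {Γ : Type} [Group Γ] [Finite Γ] {X Y : T.Pol} (a : T.Act Γ X), T.Quot a Y →
    T.dim X = T.dim Y ∧ ∀ (χ : T.TC Y) (a₀ a₁ b₀ b₁ c₀ : ℝ), Numbers χ a₀ a₁ b₀ b₁ c₀ →
      ∃ (m : ℕ) (χ' : T.TC X) (b₁' : ℝ), T.Equi a χ' ∧ 0 < m ∧ T.r χ' = T.r χ ∧
        m * (Nat.card Γ * b₁) ≤ b₁' ∧ Numbers χ' (Nat.card Γ * a₀) (Nat.card Γ * a₁)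
          (m * (Nat.card Γ * b₀)) b₁' (m ^ 2 * (Nat.card Γ * c₀))
  quot : ∀ {Γ : Type} [Group Γ] [Finite Γ] {X Y : T.Pol} (a : T.Act Γ X), T.Quot a Y →
    ∀ χ : T.TC X, T.Equi a χ → ∀ a₀ a₁ b₀ b₁ c₀ : ℝ, Numbers χ a₀ a₁ b₀ b₁ c₀ →
      ∃ (s : ℕ) (χ' : T.TC Y) (b₁' : ℝ), 0 < s ∧ T.r χ' = s * T.r χ ∧
        (s : ℝ) ^ T.dim X * b₁ / Nat.card Γ ≤ b₁' ∧
        Numbers χ' ((s : ℝ) ^ T.dim X * a₀ / Nat.card Γ)
          ((s : ℝ) ^ T.dim X * a₁ / s / Nat.card Γ) ((s : ℝ) ^ (T.dim X + 1) * b₀ / Nat.card Γ) b₁'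
          ((s : ℝ) ^ (T.dim X + 2) * c₀ / Nat.card Γ)

/-- The smallest class of actions of `Γ` which contains the actions on the manifolds with
`c_1(M) = λ c_1(L)` and the free actions for whose quotient Q1 holds, and which is closed under
products. -/
inductive Built (T : Theory) (Γ : Type) [Group Γ] : {X : T.Pol} → T.Act Γ X → Prop
  | einstein {X : T.Pol} (a : T.Act Γ X) : T.Einstein X → Built T Γ a
  | free {X : T.Pol} (a : T.Act Γ X) (Y : T.Pol) : T.Quot a Y → Q1 T Y → Built T Γ a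
  | prod {X Y : T.Pol} (a : T.Act Γ X) (b : T.Act Γ Y) : Built T Γ a → Built T Γ b →
    Built T Γ (T.prodAct a b)

end Pool.Agent.H88.YT
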