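import Pool.Agent.H88.YT.Num

/-!
# Actions, coverings, quotients and products
-/

set_option autoImplicit false

namespace Pool.Agent.H88.YT

open Filter Asymptotics

variable {T : Theory}

/-- the numbers of a product test configuration -/
theorem numbers_left (hT : Facts T) (X Y : T.Pol) (χ : T.TC X) {a₀ a₁ b₀ b₁ c₀ : ℝ}
    (h : Numbers χ a₀ a₁ b₀ b₁ c₀) : ∃ β₀ β₁ : ℝ, 0 < β₀ ∧
      Numbers (T.left X Y χ) (a₀ * β₀) (a₀ * β₁ + a₁ * β₀) (b₀ * β₀) (b₀ * β₁ + b₁ * β₀)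
        (c₀ * β₀) := by
  obtain ⟨α₀, α₁, hα, hY⟩ := hT.hilbert Y
  have hr := hT.r_pos X χ
  have hr0 : (0 : ℝ) < T.r χ := by exact_mod_cast hr
  have hg := hY.comp_mul (T.r χ) hr
  have hP := hT.prod X Y
  have ed : T.d (T.left X Y χ) = fun k => T.d χ k * T.h0 Y (T.r χ * k) := funext (hP.d χ)
  have et : T.t (T.left X Y χ) = fun k => T.t χ k * T.h0 Y (T.r χ * k) := funext (hP.t χ)
  have eq : T.q (T.left X Y χ) = fun k => T.q χ k * T.h0 Y (T.r χ * k) := funext (hP.q χ)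
  refine ⟨(T.r χ : ℝ) ^ T.dim Y * α₀, (T.r χ : ℝ) ^ T.dim Y * α₁ / T.r χ,
    mul_pos (pow_pos hr0 _) hα, ?_, ?_, ?_⟩
  · rw [hP.dim, ed]
    exact h.d.mul hg
  · rw [hP.dim, et, show T.dim X + T.dim Y + 1 = T.dim X + 1 + T.dim Y by ring]
    exact h.t.mul hg
  · rw [hP.dim, eq, show T.dim X + T.dim Y + 2 = T.dim X + 2 + T.dim Y by ring]
    exact h.q.mul hg.toExp1

theorem fut_left (a₀ a₁ b₀ b₁ β₀ β₁ : ℝ) (ha : 0 < a₀) (hβ : 0 < β₀) :
    fut (a₀ * β₀) (a₀ * β₁ + a₁ * β₀) (b₀ * β₀) (b₀ * β₁ + b₁ * β₀) = fut a₀ a₁ b₀ b₁ := by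
  unfold fut
  field_simp
  ring

theorem normSq_left (r n m : ℕ) (a₀ b₀ c₀ β₀ : ℝ) (hr : 0 < r) (ha : 0 < a₀) (hβ : 0 < β₀)
    (h : 0 < normSq r n a₀ b₀ c₀) : 0 < normSq r (n + m) (a₀ * β₀) (b₀ * β₀) (c₀ * β₀) := by
  have hr0 : (0 : ℝ) < r := by exact_mod_cast hr
  unfold normSq at *
  have h1 : 0 < c₀ - b₀ ^ 2 / a₀ := by
    have := mul_pos h (pow_pos hr0 (n + 2))
    rwa [div_mul_cancel₀ _ (pow_pos hr0 (n + 2)).ne'] at this
  have h2 : c₀ * β₀ - (b₀ * β₀) ^ 2 / (a₀ * β₀) = β₀ * (c₀ - b₀ ^ 2 / a₀) := by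
    field_simp
  rw [h2]
  exact div_pos (mul_pos hβ h1) (pow_pos hr0 _)

/-- equivariant K-stability of a product implies equivariant K-stability of the first factor -/
theorem stable_left (hT : Facts T) {Γ : Type} [Group Γ] {X Y : T.Pol} (a : T.Act Γ X)
    (b : T.Act Γ Y) (h : KStable (T.prodAct a b)) : KStable a := by
  intro χ he a₀ a₁ b₀ b₁ c₀ hN hpos
  obtain ⟨β₀, β₁, hβ, hN'⟩ := numbers_left hT X Y χ hN
  have ha := hT.a_pos X χ a₀ a₁ hN.d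
  have hP := hT.prod X Y
  have h1 := h (T.left X Y χ) (hT.equi_left a b χ he) _ _ _ _ _ hN' (by
    rw [hP.r, hP.dim]
    exact normSq_left _ _ _ _ _ _ _ (hT.r_pos X χ) ha hβ hpos)
  rwa [fut_left _ _ _ _ _ _ ha hβ] at h1

theorem eq1_prod (hT : Facts T) {Γ : Type} [Group Γ] {X Y : T.Pol} (a : T.Act Γ X)
    (b : T.Act Γ Y) (ha : EQ1 a) (hb : EQ1 b) : EQ1 (T.prodAct a b) := by
  intro hf
  obtain ⟨h1, h2⟩ := hT.fields_prod a b hf
  exact ⟨hT.stable _ hf, fun hs => hT.csck_prod a b ((ha h1).mpr (stable_left hT a b hs))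
    ((hb h2).mpr (stable_left hT b a (hT.swap a b hs)))⟩

/-- the numbers of a pull back to a covering of degree `e` after a base change of order `m` -/
theorem fut_cover {e a₀ a₁ b₀ b₁ b₁' : ℝ} {m : ℝ} (he : 0 < e) (ha : 0 < a₀)
    (hb : m * (e * b₁) ≤ b₁') (h : 0 < fut (e * a₀) (e * a₁) (m * (e * b₀)) b₁') (hm : 0 < m) :
    0 < fut a₀ a₁ b₀ b₁ := by
  unfold fut at *
  have h1 : 0 < e * a₁ * (m * (e * b₀)) - e * a₀ * b₁' := by
    have h2 := mul_pos h (pow_pos (mul_pos he ha) 2)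
    rwa [div_mul_cancel₀ _ (pow_pos (mul_pos he ha) 2).ne'] at h2
  have h3 : e * a₀ * (m * (e * b₁)) ≤ e * a₀ * b₁' :=
    mul_le_mul_of_nonneg_left hb (mul_pos he ha).le
  have h4 : 0 < e ^ 2 * m * (a₁ * b₀ - a₀ * b₁) := by
    have h5 : e ^ 2 * m * (a₁ * b₀ - a₀ * b₁) = e * a₁ * (m * (e * b₀)) - e * a₀ * (m * (e * b₁)) := by
      ring
    rw [h5]
    linarith
  exact div_pos (pos_of_mul_pos_right h4 (by positivity)) (pow_pos ha 2)

theorem normSq_cover {r n : ℕ} {e a₀ b₀ c₀ m : ℝ} (hr : 0 < r) (he : 0 < e) (hm : 0 < m)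
    (ha : 0 < a₀) (h : 0 < normSq r n a₀ b₀ c₀) :
    0 < normSq r n (e * a₀) (m * (e * b₀)) (m ^ 2 * (e * c₀)) := by
  have hr0 : (0 : ℝ) < r := by exact_mod_cast hr
  unfold normSq at *
  have h1 : 0 < c₀ - b₀ ^ 2 / a₀ := by
    have := mul_pos h (pow_pos hr0 (n + 2))
    rwa [div_mul_cancel₀ _ (pow_pos hr0 (n + 2)).ne'] at this
  have h2 : m ^ 2 * (e * c₀) - (m * (e * b₀)) ^ 2 / (e * a₀) = m ^ 2 * e * (c₀ - b₀ ^ 2 / a₀) := by
    field_simp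
  rw [h2]
  exact div_pos (mul_pos (mul_pos (pow_pos hm 2) he) h1) (pow_pos hr0 _)

/-- K-stability of a covering implies K-stability. -/
theorem stable_cover (hT : Facts T) {X X' : T.Pol} {e : ℕ} (hc : T.Cover X X' e)
    (h : KStable (T.one X')) : KStable (T.one X) := by
  intro χ _ a₀ a₁ b₀ b₁ c₀ hN hpos
  obtain ⟨he, hd, hχ⟩ := hT.cover X X' e hc
  obtain ⟨m, χ', b₁', hm, hr, hb, hN'⟩ := hχ χ a₀ a₁ b₀ b₁ c₀ hN
  have ha := hT.a_pos X χ a₀ a₁ hN.d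
  have he0 : (0 : ℝ) < e := by exact_mod_cast he
  have hm0 : (0 : ℝ) < m := by exact_mod_cast hm
  refine fut_cover he0 ha hb (h χ' (hT.equi_one X' χ') _ _ _ _ _ hN' ?_) hm0
  rw [hr, hd]
  exact normSq_cover (hT.r_pos X χ) he0 hm0 ha hpos

theorem q1_cover (hT : Facts T) {X X' : T.Pol} {e : ℕ} (hc : T.Cover X X' e) (h : Q1 T X) :
    Q1 T X' := by
  intro hf
  have h1 := hT.fields_cover X X' e hc hf
  exact ⟨hT.stable _ hf, fun hs => hT.csck_cover X X' e hc ((h h1).2 (stable_cover hT hc hs))⟩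

/-- Equivariant K-stability implies K-stability of the quotient. -/
theorem stable_of_equi (hT : Facts T) {Γ : Type} [Group Γ] [Finite Γ] {X Y : T.Pol}
    (a : T.Act Γ X) (hq : T.Quot a Y) (h : KStable a) : KStable (T.one Y) := by
  intro χ _ a₀ a₁ b₀ b₁ c₀ hN hpos
  obtain ⟨hd, hχ⟩ := hT.coverQuot a hq
  obtain ⟨m, χ', b₁', hE, hm, hr, hb, hN'⟩ := hχ χ a₀ a₁ b₀ b₁ c₀ hN
  have ha := hT.a_pos Y χ a₀ a₁ hN.d
  have he0 : (0 : ℝ) < Nat.card Γ := by exact_mod_cast Nat.card_pos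
  have hm0 : (0 : ℝ) < m := by exact_mod_cast hm
  refine fut_cover he0 ha hb (h χ' hE _ _ _ _ _ hN' ?_) hm0
  rw [hr, hd]
  exact normSq_cover (hT.r_pos Y χ) he0 hm0 ha hpos

/-- K-stability of the quotient implies equivariant K-stability. -/
theorem equi_of_stable (hT : Facts T) {Γ : Type} [Group Γ] [Finite Γ] {X Y : T.Pol}
    (a : T.Act Γ X) (hq : T.Quot a Y) (h : KStable (T.one Y)) : KStable a := by
  intro χ hE a₀ a₁ b₀ b₁ c₀ hN hpos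
  obtain ⟨s, χ', b₁', hs, hr, hb, hN'⟩ := hT.quot a hq χ hE a₀ a₁ b₀ b₁ c₀ hN
  obtain ⟨hd, -⟩ := hT.coverQuot a hq
  have ha := hT.a_pos X χ a₀ a₁ hN.d
  have hg : (0 : ℝ) < Nat.card Γ := by exact_mod_cast Nat.card_pos
  have hs0 : (0 : ℝ) < s := by exact_mod_cast hs
  have hr0 : (0 : ℝ) < T.r χ := by exact_mod_cast hT.r_pos X χ
  have h1 := h χ' (hT.equi_one Y χ') _ _ _ _ _ hN' (by
    rw [hr, ← hd]
    unfold normSq at *
    have h1 : 0 < c₀ - b₀ ^ 2 / a₀ := by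
      have := mul_pos hpos (pow_pos hr0 (T.dim X + 2))
      rwa [div_mul_cancel₀ _ (pow_pos hr0 (T.dim X + 2)).ne'] at this
    have h2 : (s : ℝ) ^ (T.dim X + 2) * c₀ / Nat.card Γ -
        ((s : ℝ) ^ (T.dim X + 1) * b₀ / Nat.card Γ) ^ 2 / ((s : ℝ) ^ T.dim X * a₀ / Nat.card Γ) =
        (s : ℝ) ^ (T.dim X + 2) / Nat.card Γ * (c₀ - b₀ ^ 2 / a₀) := by
      field_simp
      ring
    rw [h2]
    push_cast
    positivity)
  unfold fut at *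
  have hA : 0 < (s : ℝ) ^ T.dim X * a₀ / Nat.card Γ := by positivity
  have h2 : 0 < (s : ℝ) ^ T.dim X * a₁ / s / Nat.card Γ *
      ((s : ℝ) ^ (T.dim X + 1) * b₀ / Nat.card Γ) - (s : ℝ) ^ T.dim X * a₀ / Nat.card Γ * b₁' := by
    have h3 := mul_pos h1 (pow_pos hA 2)
    rwa [div_mul_cancel₀ _ (pow_pos hA 2).ne'] at h3
  have h3 : (s : ℝ) ^ T.dim X * a₀ / Nat.card Γ * ((s : ℝ) ^ T.dim X * b₁ / Nat.card Γ) ≤
      (s : ℝ) ^ T.dim X * a₀ / Nat.card Γ * b₁' := mul_le_mul_of_nonneg_left hb hA.le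
  have h4 : (s : ℝ) ^ T.dim X * a₁ / s / Nat.card Γ * ((s : ℝ) ^ (T.dim X + 1) * b₀ / Nat.card Γ) -
      (s : ℝ) ^ T.dim X * a₀ / Nat.card Γ * ((s : ℝ) ^ T.dim X * b₁ / Nat.card Γ) =
      ((s : ℝ) ^ T.dim X / Nat.card Γ) ^ 2 * (a₁ * b₀ - a₀ * b₁) := by
    field_simp
    ring
  have h5 : 0 < ((s : ℝ) ^ T.dim X / Nat.card Γ) ^ 2 * (a₁ * b₀ - a₀ * b₁) := by
    rw [← h4]
    linarith
  exact div_pos (pos_of_mul_pos_right h5 (by positivity)) (pow_pos ha 2)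

/-- **Free quotients.** -/
theorem q1_quot (hT : Facts T) {Γ : Type} [Group Γ] [Finite Γ] {X Y : T.Pol} (a : T.Act Γ X)
    (hq : T.Quot a Y) : Q1 T Y ↔ EQ1 a := by
  unfold Q1 EQ1
  rw [← hT.fields_quot a hq, ← hT.csck_quot a hq]
  have h1 : KStable (T.one Y) ↔ KStable a := ⟨equi_of_stable hT a hq, stable_of_equi hT a hq⟩
  rw [h1]

/-- **Restriction of the group.** -/
theorem eq1_comp (hT : Facts T) {Γ Δ : Type} [Group Γ] [Finite Γ] [Group Δ] [Finite Δ]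
    {X : T.Pol} (a : T.Act Γ X) (φ : Δ →* Γ) (h : EQ1 a) : EQ1 (T.comp a φ) := by
  intro hf
  refine ⟨hT.stable _ hf, fun hs => ?_⟩
  rw [hT.unique (T.comp a φ), ← hT.unique a]
  refine (h (hT.fields_comp a φ hf)).2 fun χ hχ => hs χ (hT.equi_comp a φ χ hχ)

theorem q1_of_eq1 (hT : Facts T) {Γ : Type} [Group Γ] [Finite Γ] {X : T.Pol} (a : T.Act Γ X)
    (h : EQ1 a) : Q1 T X := by
  intro hf
  refine ⟨hT.stable _ hf, fun hs => ?_⟩
  rw [← hT.unique a]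
  exact (h (hT.fields_one a hf)).2 fun χ _ => hs χ (hT.equi_one X χ)

theorem eq1_built (hT : Facts T) {Γ : Type} [Group Γ] [Finite Γ] {X : T.Pol} (a : T.Act Γ X)
    (h : Built T Γ a) : EQ1 a := by
  induction h with
  | einstein a h => exact hT.einstein a h
  | free a Y h hY => exact (q1_quot hT a h).1 hY
  | prod a b _ _ ih1 ih2 => exact eq1_prod hT a b ih1 ih2

end Pool.Agent.H88.YT
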