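import Pool.Agent.H88.YT.Defs

/-!
# Expansions of products (copied from the library result `MP_9dce12_gt.Products`)
-/

set_option autoImplicit false

namespace Pool.Agent.H88.YT

open Filter Asymptotics

/-- `k ↦ k^z` -/
noncomputable def pw (z : ℤ) : ℕ → ℝ := fun k => (k : ℝ) ^ z

theorem pw_mul (a b : ℤ) : (fun k => pw a k * pw b k) =ᶠ[atTop] pw (a + b) := by
  filter_upwards [eventually_gt_atTop 0] with k hk
  have : (k : ℝ) ≠ 0 := by exact_mod_cast hk.ne'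
  simp only [pw, zpow_add₀ this]

theorem pw_mono {a b : ℤ} (h : a ≤ b) : pw a =O[atTop] pw b := by
  refine IsBigO.of_bound 1 ?_
  filter_upwards [eventually_ge_atTop 1] with k hk
  have h1 : (1 : ℝ) ≤ k := by exact_mod_cast hk
  have h2 : (0 : ℝ) < k := by linarith
  rw [one_mul, Real.norm_eq_abs, Real.norm_eq_abs]
  simp only [pw]
  rw [abs_of_pos (zpow_pos h2 _), abs_of_pos (zpow_pos h2 _)]
  exact zpow_le_zpow_right₀ h1 h

theorem isBigO_mul {f g : ℕ → ℝ} {a b c : ℤ} (hf : f =O[atTop] pw a) (hg : g =O[atTop] pw b)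
    (h : a + b ≤ c) : (fun k => f k * g k) =O[atTop] pw c :=
  ((hf.mul hg).trans_eventuallyEq (pw_mul a b)).trans (pw_mono h)

theorem pw_nat (d : ℕ) (k : ℕ) : (k : ℝ) ^ d = pw d k := by simp [pw]

theorem const_mul_pw (x : ℝ) {a b : ℤ} (h : a ≤ b) : (fun k => x * pw a k) =O[atTop] pw b :=
  (isBigO_const_mul_self x (pw a) atTop).trans (pw_mono h)

/-- the main part `k^d (x₀ + x₁/k)` -/
theorem main_eq (d : ℕ) (x₀ x₁ : ℝ) :
    (fun k : ℕ => (k : ℝ) ^ d * (x₀ + x₁ / k)) =ᶠ[atTop]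
      fun k => x₀ * pw d k + x₁ * pw ((d : ℤ) - 1) k := by
  filter_upwards [eventually_gt_atTop 0] with k hk
  have hk0 : (k : ℝ) ≠ 0 := by exact_mod_cast hk.ne'
  rw [pw_nat]
  simp only [pw]
  rw [zpow_sub_one₀ hk0]
  field_simp

theorem main_isBigO (d : ℕ) (x₀ x₁ : ℝ) :
    (fun k => x₀ * pw d k + x₁ * pw ((d : ℤ) - 1) k) =O[atTop] pw d :=
  (const_mul_pw x₀ le_rfl).add (const_mul_pw x₁ (by omega))

theorem exp2_iff (f : ℕ → ℝ) (d : ℕ) (x₀ x₁ : ℝ) : Exp2 f d x₀ x₁ ↔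
    (fun k : ℕ => f k - (x₀ * pw d k + x₁ * pw ((d : ℤ) - 1) k)) =O[atTop] pw ((d : ℤ) - 2) := by
  unfold Exp2
  refine isBigO_congr ?_ (EventuallyEq.rfl)
  filter_upwards [main_eq d x₀ x₁] with k hk
  rw [hk]

theorem exp1_iff (f : ℕ → ℝ) (d : ℕ) (x₀ : ℝ) : Exp1 f d x₀ ↔
    (fun k : ℕ => f k - x₀ * pw d k) =O[atTop] pw ((d : ℤ) - 1) := by
  unfold Exp1
  refine isBigO_congr ?_ (EventuallyEq.rfl)
  filter_upwards with k
  rw [pw_nat, mul_comm]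

theorem Exp2.toExp1 {f : ℕ → ℝ} {d : ℕ} {x₀ x₁ : ℝ} (h : Exp2 f d x₀ x₁) : Exp1 f d x₀ := by
  rw [exp2_iff] at h
  rw [exp1_iff]
  have h1 := (h.trans (pw_mono (by omega : (d : ℤ) - 2 ≤ d - 1))).add
    (const_mul_pw x₁ (le_refl ((d : ℤ) - 1)))
  refine h1.congr_left fun k => ?_
  ring

/-- product of expansions with two terms -/
theorem Exp2.mul {f g : ℕ → ℝ} {n m : ℕ} {x₀ x₁ y₀ y₁ : ℝ} (hf : Exp2 f n x₀ x₁)
    (hg : Exp2 g m y₀ y₁) :
    Exp2 (fun k => f k * g k) (n + m) (x₀ * y₀) (x₀ * y₁ + x₁ * y₀) := by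
  rw [exp2_iff] at hf hg ⊢
  set F : ℕ → ℝ := fun k => x₀ * pw n k + x₁ * pw ((n : ℤ) - 1) k with hF
  set G : ℕ → ℝ := fun k => y₀ * pw m k + y₁ * pw ((m : ℤ) - 1) k with hG
  have hFO : F =O[atTop] pw n := main_isBigO n x₀ x₁
  have hGO : G =O[atTop] pw m := main_isBigO m y₀ y₁
  have h1 := isBigO_mul (c := ((n + m : ℕ) : ℤ) - 2) hf hGO (by push_cast; omega)
  have h2 := isBigO_mul (c := ((n + m : ℕ) : ℤ) - 2) hFO hg (by push_cast; omega)
  have h3 := isBigO_mul (c := ((n + m : ℕ) : ℤ) - 2) hf hg (by push_cast; omega)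
  have h4 := const_mul_pw (x₁ * y₁) (le_refl (((n + m : ℕ) : ℤ) - 2))
  refine (((h1.add h2).add h3).add h4).congr' ?_ EventuallyEq.rfl
  filter_upwards [eventually_gt_atTop 0] with k hk
  have hk0 : (k : ℝ) ≠ 0 := by exact_mod_cast hk.ne'
  have e1 : pw n k * pw m k = pw ((n + m : ℕ) : ℤ) k := by
    simp only [pw]; push_cast; rw [zpow_add₀ hk0]
  have e2 : pw n k * pw ((m : ℤ) - 1) k = pw (((n + m : ℕ) : ℤ) - 1) k := by
    simp only [pw]; push_cast; rw [← zpow_add₀ hk0]; congr 1; ring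
  have e3 : pw ((n : ℤ) - 1) k * pw m k = pw (((n + m : ℕ) : ℤ) - 1) k := by
    simp only [pw]; push_cast; rw [← zpow_add₀ hk0]; congr 1; ring
  have e4 : pw ((n : ℤ) - 1) k * pw ((m : ℤ) - 1) k = pw (((n + m : ℕ) : ℤ) - 2) k := by
    simp only [pw]; push_cast; rw [← zpow_add₀ hk0]; congr 1; ring
  rw [← e1, ← e4]
  have e5 : (x₀ * y₁ + x₁ * y₀) * pw (((n + m : ℕ) : ℤ) - 1) k =
      x₀ * y₁ * (pw n k * pw ((m : ℤ) - 1) k) + x₁ * y₀ * (pw ((n : ℤ) - 1) k * pw m k) := by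
    rw [e2, e3]; ring
  rw [e5]
  simp only [hF, hG]
  ring

/-- product of expansions with one term -/
theorem Exp1.mul {f g : ℕ → ℝ} {n m : ℕ} {x₀ y₀ : ℝ} (hf : Exp1 f n x₀)
    (hg : Exp1 g m y₀) : Exp1 (fun k => f k * g k) (n + m) (x₀ * y₀) := by
  rw [exp1_iff] at hf hg ⊢
  have hFO : (fun k => x₀ * pw n k) =O[atTop] pw n := const_mul_pw x₀ le_rfl
  have hGO : (fun k => y₀ * pw m k) =O[atTop] pw m := const_mul_pw y₀ le_rfl
  have h1 := isBigO_mul (c := ((n + m : ℕ) : ℤ) - 1) hf hGO (by push_cast; omega)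
  have h2 := isBigO_mul (c := ((n + m : ℕ) : ℤ) - 1) hFO hg (by push_cast; omega)
  have h3 := isBigO_mul (c := ((n + m : ℕ) : ℤ) - 1) hf hg (by push_cast; omega)
  refine ((h1.add h2).add h3).congr' ?_ EventuallyEq.rfl
  filter_upwards [eventually_gt_atTop 0] with k hk
  have hk0 : (k : ℝ) ≠ 0 := by exact_mod_cast hk.ne'
  have e1 : pw n k * pw m k = pw ((n + m : ℕ) : ℤ) k := by
    simp only [pw]; push_cast; rw [zpow_add₀ hk0]
  rw [← e1]
  ring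

/-- the expansion of `k ↦ f(r k)` -/
theorem Exp2.comp_mul {f : ℕ → ℝ} {m : ℕ} {y₀ y₁ : ℝ} (h : Exp2 f m y₀ y₁) (r : ℕ) (hr : 0 < r) :
    Exp2 (fun k => f (r * k)) m ((r : ℝ) ^ m * y₀) ((r : ℝ) ^ m * y₁ / r) := by
  unfold Exp2 at *
  have hr0 : (r : ℝ) ≠ 0 := by exact_mod_cast hr.ne'
  have ht : Tendsto (fun k : ℕ => r * k) atTop atTop :=
    tendsto_id.const_mul_atTop' hr
  have h1 := h.comp_tendsto ht
  have h2 : (fun k : ℕ => (((r * k : ℕ) : ℝ)) ^ ((m : ℤ) - 2)) =O[atTop]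
      fun k : ℕ => (k : ℝ) ^ ((m : ℤ) - 2) := by
    have : (fun k : ℕ => (((r * k : ℕ) : ℝ)) ^ ((m : ℤ) - 2)) =
        fun k : ℕ => (r : ℝ) ^ ((m : ℤ) - 2) * (k : ℝ) ^ ((m : ℤ) - 2) := by
      funext k
      push_cast
      rw [mul_zpow]
    rw [this]
    exact isBigO_const_mul_self _ _ _
  refine (h1.trans h2).congr' ?_ EventuallyEq.rfl
  filter_upwards [eventually_gt_atTop 0] with k hk
  have hk0 : (k : ℝ) ≠ 0 := by exact_mod_cast hk.ne'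
  simp only [Function.comp]
  push_cast
  rw [mul_pow]
  field_simp


end Pool.Agent.H88.YT
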